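import Pool.Agent.H14R2.LL.Defs
import Pool.Agent.H14R2.LL.S.HIGHN
import Pool.Agent.H14R2.RC.S.NOINV
import Pool.Agent.H14R2.RC.S.AMP1

namespace LL14
open RC14 RC852 TE852 Finset Equiv Filter

namespace HCHARx

/-- `HIGHN` for an invariant subspace -/
theorem highnsub {V : Type*} [NormedAddCommGroup V] [InnerProductSpace ℂ V]
    [FiniteDimensional ℂ V] (N : ℕ) (hN : 100 ≤ N) (n : ℕ) (hn : 1000 ≤ n)
    (ρ : Alt n →* (V ≃ₗᵢ[ℂ] V)) (W : Submodule ℂ V) (hW : Irr ρ W)
    (hno : ∀ K : Finset (Fin n), N * K.card ≤ n → ∀ v ∈ W,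
      (∀ h : Alt n, (∀ a ∈ K, (h : Equiv.Perm (Fin n)) a = a) → ρ h v = v) → v = 0)
    (g : Alt n) (hg : 2 * nfix (g : Equiv.Perm (Fin n)) ≤ n) (m : ℕ) (hm : 36 * m ≤ n) :
    ‖rchr ρ W hW.2.1 g‖ ^ 2 ≤ Real.exp (72 * (m : ℝ) ^ 2 / n) * (1 - 1 / (84 * (N : ℝ))) ^ m *
      (Module.finrank ℂ W : ℝ) ^ 2 := by
  refine HIGHN N hN n hn (res ρ W hW.2.1) (AMP1.irr_res ρ W hW) ?_ g hg m hm
  intro K hK v hv
  have := hno K hK (v : V) v.2 ?_
  · exact_mod_cast this
  · intro h hh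
    have := hv h hh
    have := congrArg (Subtype.val) this
    simpa using this

/-- the numerical estimate -/
theorem num (N n : ℕ) (hN : 100 ≤ N) (hn : 2 * (12096 * N) ≤ n) :
    Real.exp (72 * ((n / (12096 * N) : ℕ) : ℝ) ^ 2 / n) *
      (1 - 1 / (84 * (N : ℝ))) ^ (n / (12096 * N)) ≤
      Real.exp (-(1 / (2 * 336 * 12096 * (N : ℝ) ^ 2) * n)) ^ 2 := by
  set m : ℕ := n / (12096 * N) with hm
  have hNr : (100 : ℝ) ≤ N := by exact_mod_cast hN
  have hN0 : (0 : ℝ) < N := by linarith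
  have hnr : 2 * (12096 * (N : ℝ)) ≤ n := by exact_mod_cast hn
  have hn0 : (0 : ℝ) < n := by nlinarith
  have h1 : (m : ℝ) * (12096 * N) ≤ n := by
    have : m * (12096 * N) ≤ n := Nat.div_mul_le_self _ _
    exact_mod_cast this
  have h2 : (n : ℝ) ≤ 2 * (m * (12096 * N)) := by
    have e1 : n < (m + 1) * (12096 * N) := by
      rw [hm, mul_comm]
      exact Nat.lt_mul_div_succ n (by positivity)
    have e2 : 1 ≤ m := by
      rw [hm]
      exact (Nat.one_le_div_iff (by positivity)).mpr (by omega)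
    have e3 : (m + 1) * (12096 * N) ≤ 2 * (m * (12096 * N)) := by
      calc (m + 1) * (12096 * N) ≤ (2 * m) * (12096 * N) := Nat.mul_le_mul_right _ (by omega)
        _ = 2 * (m * (12096 * N)) := by ring
    exact_mod_cast (e1.le.trans e3)
  have h3 : (1 - 1 / (84 * (N : ℝ))) ^ m ≤ Real.exp (-(m / (84 * N))) := by
    have h4 : 1 - 1 / (84 * (N : ℝ)) ≤ Real.exp (-(1 / (84 * N))) := by
      have := Real.add_one_le_exp (-(1 / (84 * (N : ℝ))))
      linarith
    have h5 : 0 ≤ 1 - 1 / (84 * (N : ℝ)) := by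
      have : 1 / (84 * (N : ℝ)) ≤ 1 := by
        rw [div_le_one (by positivity)]
        linarith
      linarith
    calc (1 - 1 / (84 * (N : ℝ))) ^ m ≤ Real.exp (-(1 / (84 * N))) ^ m :=
          pow_le_pow_left₀ h5 h4 _
      _ = Real.exp (-(m / (84 * N))) := by
          rw [← Real.exp_nat_mul]
          congr 1
          ring
  have h6 : 72 * (m : ℝ) ^ 2 / n ≤ m / (168 * N) := by
    rw [div_le_div_iff₀ hn0 (by positivity)]
    have hm0 : (0 : ℝ) ≤ m := Nat.cast_nonneg m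
    nlinarith [mul_le_mul_of_nonneg_left h1 hm0]
  calc Real.exp (72 * (m : ℝ) ^ 2 / n) * (1 - 1 / (84 * (N : ℝ))) ^ m
      ≤ Real.exp (m / (168 * N)) * Real.exp (-(m / (84 * N))) :=
        mul_le_mul (Real.exp_le_exp.mpr h6) h3 (by
          apply pow_nonneg
          have : 1 / (84 * (N : ℝ)) ≤ 1 := by
            rw [div_le_one (by positivity)]
            linarith
          linarith) (Real.exp_pos _).le
    _ = Real.exp (-(m / (168 * N))) := by
        rw [← Real.exp_add]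
        congr 1
        field_simp
        ring
    _ ≤ Real.exp (-(1 / (2 * 336 * 12096 * (N : ℝ) ^ 2) * n)) ^ 2 := by
        rw [← Real.exp_nat_mul]
        apply Real.exp_le_exp.mpr
        have h7 : (1 / (336 * 12096 * (N : ℝ) ^ 2) * n) ≤ m / (168 * N) := by
          rw [div_mul_eq_mul_div, one_mul, div_le_div_iff₀ (by positivity) (by positivity)]
          have := mul_le_mul_of_nonneg_right h2 (show (0 : ℝ) ≤ 168 * N by positivity)
          nlinarith
        have h8 : ((2 : ℕ) : ℝ) * -(1 / (2 * 336 * 12096 * (N : ℝ) ^ 2) * n) =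
            -(1 / (336 * 12096 * (N : ℝ) ^ 2) * n) := by
          push_cast
          field_simp
        rw [h8]
        linarith

end HCHARx

/-- character bound for the irreducible subspaces of `HH r n`, `r ≥ n / D1` -/
theorem HCHAR (D1 : ℕ) (hD : 100 ≤ D1) : ∃ c3 : ℝ, 0 < c3 ∧ ∀ᶠ n : ℕ in atTop,
    ∀ r : ℕ, n ≤ D1 * r → ∀ (W : Submodule ℂ (FA n)) (hW : Irr (RR n) W), W ≤ HH r n →
    ∀ g : Alt n, 2 * nfix (g : Perm (Fin n)) ≤ n →
      ‖rchr (RR n) W hW.2.1 g‖ ≤ Real.exp (-(c3 * n)) * Module.finrank ℂ W := by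
  refine ⟨1 / (2 * 336 * 12096 * (D1 : ℝ) ^ 2), by positivity, ?_⟩
  filter_upwards [eventually_ge_atTop (2 * (12096 * D1)), eventually_ge_atTop 1000] with n hn hn2
  intro r hr W hW hWr g hg
  have hm : 36 * (n / (12096 * D1)) ≤ n := by
    calc 36 * (n / (12096 * D1)) ≤ (12096 * D1) * (n / (12096 * D1)) :=
          Nat.mul_le_mul_right _ (by omega)
      _ ≤ n := Nat.mul_div_le _ _
  have key := HCHARx.highnsub D1 hD n hn2 (RR n) W hW ?_ g hg (n / (12096 * D1)) hm
  · refine (pow_le_pow_iff_left₀ (norm_nonneg _) (by positivity) two_ne_zero).mp (key.trans ?_)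
    rw [mul_pow]
    exact mul_le_mul_of_nonneg_right (HCHARx.num D1 n hD hn) (by positivity)
  · intro K hK v hv hinv
    refine NOINV n r v (hWr hv) K ?_ hinv
    by_contra hc
    push Not at hc
    have h1 : D1 * (r + 1) ≤ D1 * K.card := Nat.mul_le_mul_left _ hc
    have h2 : D1 * (r + 1) = D1 * r + D1 := by ring
    omega

end LL14
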